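import Pool.Agent.Helper15.AF.Goals4
import Pool.Agent.Helper27.JT.DGJ
import Pool.Agent.Helper78.DT.Av

/-!
# AF-DGM: counting seeds by their digits
-/

namespace Pool.Agent.Helper64.AF

open Pool.Agent.Helper78.DT Pool.Agent.Helper78.JT Pool.Agent.Helper15.AF
open scoped Classical

/-- The digits of the middle part. -/
def mid (Q0 Z : ℕ) : Fin (Q0 * Q0 * Z) ≃ (Fin Q0 × Fin Q0) × Fin Z :=
  (finCongr (by ring : Q0 * Q0 * Z = Z * (Q0 * Q0))).trans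
    (finProdFinEquiv.symm.trans ((Equiv.prodComm _ _).trans
      (Equiv.prodCongr (finProdFinEquiv.symm.trans (Equiv.prodComm _ _)) (Equiv.refl _))))

theorem mid1 (Q0 Z : ℕ) (i : Fin (Q0 * Q0 * Z)) : ((mid Q0 Z i).1.1 : ℕ) = (i : ℕ) % Q0 := by
  simp [mid]

theorem mid2 (Q0 Z : ℕ) (i : Fin (Q0 * Q0 * Z)) :
    ((mid Q0 Z i).1.2 : ℕ) = (i : ℕ) / Q0 % Q0 := by
  simp [mid, Nat.mod_mul_right_div_self]

theorem mid3 (Q0 Z : ℕ) (i : Fin (Q0 * Q0 * Z)) : ((mid Q0 Z i).2 : ℕ) = (i : ℕ) / (Q0 * Q0) := by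
  simp [mid]

theorem dgm : DgmStmt := by
  intro P Z Q0 Q u K F hF hZ
  have h := Pool.Agent.Helper27.JT.dgj P (Q0 * Q0 * Z) Q u K
    (fun A θ s => F A (θ % Q0) (θ / Q0 % Q0) (θ / (Q0 * Q0)) s)
    (fun A A' s s' θ h1 h2 => hF A A' s s' _ _ _ h1 h2)
    (fun A s θ => by
      have e1 : θ % (Q0 * Q0 * Z) % Q0 = θ % Q0 :=
        Nat.mod_mod_of_dvd _ (Dvd.intro (Q0 * Z) (by ring))
      have e2 : θ % (Q0 * Q0 * Z) / Q0 % Q0 = θ / Q0 % Q0 := by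
        rw [show Q0 * Q0 * Z = Q0 * (Q0 * Z) by ring, Nat.mod_mul_right_div_self,
          Nat.mod_mod_of_dvd _ (Dvd.intro Z rfl)]
      have e3 : θ % (Q0 * Q0 * Z) / (Q0 * Q0) = θ / (Q0 * Q0) % Z :=
        Nat.mod_mul_right_div_self _ _ _
      beta_reduce
      rw [e1, e2, e3, ← hZ])
  beta_reduce at h
  rw [h]
  congr 1
  rw [← pr_equiv (Equiv.prodCongr (Equiv.refl (Fin u → Fin P))
    ((Equiv.prodCongr (mid Q0 Z) (Equiv.refl (Fin K → Fin Q))).trans (Equiv.prodAssoc _ _ _)))]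
  apply pr_congr
  intro z
  simp only [Equiv.prodCongr_apply, Prod.map, Equiv.trans_apply, Equiv.prodAssoc_apply,
    Equiv.refl_apply, mid1, mid2, mid3]

end Pool.Agent.Helper64.AF
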