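import Pool.Agent.Helper26.AF.Goals2

set_option autoImplicit false

open Finset Pool.Agent.Helper26.AF

namespace Pool.Agent.Helper64.AF

theorem rot_ne {r : ℕ} {σ : Equiv.Perm (KX r)} (hσ : RotX σ) (z : KX r) : σ z ≠ z := by
  intro h
  have h1 : ∀ c : Fin 3, σ.SameCycle z (z.1, c) := fun c => hσ.2 z (z.1, c) rfl
  have h2 : ∀ c : Fin 3, (z.1, c) = z := by
    intro c
    obtain ⟨i, hi⟩ := h1 c
    rw [Equiv.Perm.zpow_apply_eq_self_of_apply_eq_self h] at hi
    exact hi.symm
  have h3 : ((z.1, (0 : Fin 3)) : KX r) = (z.1, 1) := (h2 0).trans (h2 1).symm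
  have h4 : (0 : Fin 3) = 1 := congrArg Prod.snd h3
  exact absurd h4 (by decide)

theorem small_bad {r L : ℕ} {κ σ : Equiv.Perm (KX r)} (hσ : RotX σ) (x0 : KX r)
    (hl : Function.minimalPeriod (⇑(σ * κ)) x0 ≤ L) :
    ∃ i : ℕ, BadD L κ ((⇑(σ * κ))^[i] x0) := by
  classical
  set φ : KX r → KX r := ⇑(σ * κ) with hφ
  have hφa : ∀ x, φ x = σ (κ x) := fun x => rfl
  have hinj : Function.Injective φ := (σ * κ).injective
  have hper : 0 < Function.minimalPeriod φ x0 := by
    refine Function.minimalPeriod_pos_of_mem_periodicPts ?_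
    exact hinj.mem_periodicPts x0
  have hex : ∃ j : ℕ, 1 ≤ j ∧ ∃ i : ℕ, (φ^[i + j] x0).1 = (φ^[i] x0).1 := by
    refine ⟨Function.minimalPeriod φ x0, hper, 0, ?_⟩
    rw [zero_add, Function.iterate_minimalPeriod]
    rfl
  obtain ⟨hj1, i, hi⟩ := Nat.find_spec hex
  have hjl : Nat.find hex ≤ Function.minimalPeriod φ x0 := Nat.find_min' hex ⟨hper, 0, by
    rw [zero_add, Function.iterate_minimalPeriod]
    rfl⟩
  refine ⟨i, Nat.find hex, hj1, hjl.trans hl, fun k => φ^[i + k] x0, rfl, ?_, hi, ?_⟩
  · intro k _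
    have h1 : φ^[i + (k + 1)] x0 = σ (κ (φ^[i + k] x0)) := by
      rw [← add_assoc, Function.iterate_succ_apply', hφa]
    refine ⟨?_, ?_⟩
    · change (κ (φ^[i + k] x0)).1 = (φ^[i + (k + 1)] x0).1
      rw [h1, hσ.1]
    · change κ (φ^[i + k] x0) ≠ φ^[i + (k + 1)] x0
      rw [h1]
      exact (rot_ne hσ _).symm
  · have key : ∀ k k' : ℕ, k < k' → k' < Nat.find hex →
        (φ^[i + k] x0).1 ≠ (φ^[i + k'] x0).1 := by
      intro k k' hkk hk' heq
      refine Nat.find_min hex (m := k' - k) (by omega) ⟨by omega, i + k, ?_⟩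
      rw [show i + k + (k' - k) = i + k' by omega]
      exact heq.symm
    intro k hk k' hk' hne
    rcases lt_or_gt_of_ne hne with h | h
    · exact key k k' h hk'
    · exact (key k' k h hk).symm

theorem goalKFA : StmtKFA := by
  classical
  intro L r κ σ _hL _hκ hσ
  set s : Setoid (KX r) := Equiv.Perm.SameCycle.setoid (σ * κ) with hs
  let Q := Quotient s
  haveI : Fintype Q := Fintype.ofFinite _
  have horb : orb (σ * κ) = Fintype.card Q := Nat.card_eq_fintype_card
  let c : Q → ℕ := fun q => (univ.filter (fun x : KX r => (Quotient.mk s x) = q)).card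
  have hsum : ∑ q, c q = 6 * r := by
    have h1 := card_eq_sum_card_fiberwise (s := (univ : Finset (KX r))) (t := (univ : Finset Q))
      (f := fun x => Quotient.mk s x) (fun x _ => mem_coe.2 (mem_univ _))
    have h2 : (univ : Finset (KX r)).card = 6 * r := by
      rw [card_univ, Fintype.card_prod, Fintype.card_fin, Fintype.card_fin]
      ring
    rw [← h2, h1]
  let B : Finset (KX r) := univ.filter (fun x => BadD L κ x)
  have hB : Nat.card {x : KX r // BadD L κ x} = B.card := by
    rw [Nat.card_eq_fintype_card, Fintype.card_subtype]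
  have hsmall : (univ.filter (fun q : Q => c q ≤ L)) ⊆ B.image (fun x => Quotient.mk s x) := by
    intro q hq
    rw [mem_filter] at hq
    obtain ⟨x0, rfl⟩ := Quotient.exists_rep q
    have hit : ∀ i : ℕ, (Quotient.mk s ((⇑(σ * κ))^[i] x0)) = Quotient.mk s x0 := by
      intro i
      refine Quotient.sound ?_
      change (σ * κ).SameCycle _ _
      refine Equiv.Perm.SameCycle.symm ⟨(i : ℤ), ?_⟩
      rw [zpow_natCast, Equiv.Perm.iterate_eq_pow]
    have hle : Function.minimalPeriod (⇑(σ * κ)) x0 ≤ c (Quotient.mk s x0) := by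
      have h1 : ((range (Function.minimalPeriod (⇑(σ * κ)) x0)).image
          (fun i => (⇑(σ * κ))^[i] x0)) ⊆
          univ.filter (fun x : KX r => (Quotient.mk s x) = Quotient.mk s x0) := by
        intro y hy
        rw [mem_image] at hy
        obtain ⟨i, _, rfl⟩ := hy
        rw [mem_filter]
        exact ⟨mem_univ _, hit i⟩
      have h2 := card_le_card h1
      rw [card_image_of_injOn, card_range] at h2
      · exact h2
      · intro a ha b hb hab
        rw [mem_coe, mem_range] at ha hb
        exact Function.iterate_injOn_Iio_minimalPeriod (Set.mem_Iio.2 ha) (Set.mem_Iio.2 hb) hab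
    obtain ⟨i, hi⟩ := small_bad hσ x0 (hle.trans hq.2)
    rw [mem_image]
    exact ⟨_, mem_filter.2 ⟨mem_univ _, hi⟩, hit i⟩
  have hcard : (univ.filter (fun q : Q => c q ≤ L)).card ≤ B.card :=
    (card_le_card hsmall).trans card_image_le
  rw [horb, hB]
  calc L * Fintype.card Q = ∑ q : Q, L := by
        rw [sum_const, card_univ, smul_eq_mul, mul_comm]
    _ ≤ ∑ q : Q, ((if c q ≤ L then L else 0) + c q) := by
        refine sum_le_sum fun q _ => ?_
        by_cases h : c q ≤ L
        · rw [if_pos h]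
          omega
        · rw [if_neg h]
          omega
    _ = L * (univ.filter (fun q : Q => c q ≤ L)).card + 6 * r := by
        rw [sum_add_distrib, hsum, ← sum_filter, sum_const, smul_eq_mul, mul_comm]
    _ ≤ L * B.card + 6 * r := by
        have := Nat.mul_le_mul_left L hcard
        omega

end Pool.Agent.Helper64.AF
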